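import Pool.Agent.W978.QP.Stm

/-! Project QP (owner helper978), part QP-PT: a point of the open set. -/

set_option autoImplicit false

namespace Pool.Agent.W135.QP.PT

open Pool.Agent.W978.QP

section Nat
variable {R S : Type*} [CommRing R] [CommRing S] (φ : R →+* S) (b : Fin 2 → Fin 3 → Fin 3 → ℤ)

theorem av_nat (i : Fin 2) (q : Fin 3 → R) :
    av b i (fun j => φ (q j)) = fun k => φ (av b i q k) := by
  funext k
  simp only [av, map_sum, map_mul, map_intCast]

theorem mp_nat (p : Fin 2 → R) (k j : Fin 3) :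
    mp b (fun i => φ (p i)) k j = φ (mp b p k j) := by
  simp only [mp, map_sum, map_mul, map_intCast]

theorem cr_nat (x y : Fin 3 → R) (i : Fin 3) :
    cr (fun j => φ (x j)) (fun j => φ (y j)) i = φ (cr x y i) := by
  have hi : i = 0 ∨ i = 1 ∨ i = 2 := by fin_cases i <;> simp
  rcases hi with rfl | rfl | rfl <;> simp [cr]

theorem dp_nat (x y : Fin 3 → R) :
    dp (fun j => φ (x j)) (fun j => φ (y j)) = φ (dp x y) := by
  simp only [dp, map_sum, map_mul]

theorem det_nat (p : Fin 2 → R) :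
    (Matrix.of (mp b (fun i => φ (p i)))).det = φ (Matrix.of (mp b p)).det := by
  rw [RingHom.map_det]
  congr 1
  ext k j
  simp only [Matrix.of_apply, RingHom.mapMatrix_apply, Matrix.map_apply]
  exact mp_nat φ b p k j

end Nat

/-- the point `p` determined by `q`, `r` -/
def pp {R : Type*} [CommRing R] (b : Fin 2 → Fin 3 → Fin 3 → ℤ) (q r : Fin 3 → R) : Fin 2 → R :=
  ![-dp (av b 1 q) r, dp (av b 0 q) r]

theorem pp_nat {R S : Type*} [CommRing R] [CommRing S] (φ : R →+* S)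
    (b : Fin 2 → Fin 3 → Fin 3 → ℤ) (q r : Fin 3 → R) :
    pp b (fun j => φ (q j)) (fun j => φ (r j)) = fun i => φ (pp b q r i) := by
  have h0 : dp (av b 0 (fun j => φ (q j))) (fun j => φ (r j)) = φ (dp (av b 0 q) r) := by
    rw [av_nat, dp_nat]
  have h1 : dp (av b 1 (fun j => φ (q j))) (fun j => φ (r j)) = φ (dp (av b 1 q) r) := by
    rw [av_nat, dp_nat]
  funext i
  have hi : i = 0 ∨ i = 1 := by fin_cases i <;> simp
  rcases hi with rfl | rfl
  · simp [pp, h1]
  · simp [pp, h0]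

abbrev Pol := MvPolynomial (Fin 2 × Fin 3) ℂ

theorem cn3 (g1 g2 g3 : Pol) (h1 : ∃ P, MvPolynomial.eval P g1 ≠ 0)
    (h2 : ∃ P, MvPolynomial.eval P g2 ≠ 0) (h3 : ∃ P, MvPolynomial.eval P g3 ≠ 0) :
    ∃ P, MvPolynomial.eval P g1 ≠ 0 ∧ MvPolynomial.eval P g2 ≠ 0 ∧ MvPolynomial.eval P g3 ≠ 0 := by
  have e1 : g1 ≠ 0 := by
    rintro rfl; obtain ⟨P, hP⟩ := h1; exact hP (map_zero _)
  have e2 : g2 ≠ 0 := by
    rintro rfl; obtain ⟨P, hP⟩ := h2; exact hP (map_zero _)
  have e3 : g3 ≠ 0 := by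
    rintro rfl; obtain ⟨P, hP⟩ := h3; exact hP (map_zero _)
  by_contra hcon
  push Not at hcon
  apply mul_ne_zero (mul_ne_zero e1 e2) e3
  apply MvPolynomial.funext
  intro x
  have h := hcon x
  rw [map_zero, map_mul, map_mul]
  by_cases k1 : MvPolynomial.eval x g1 = 0
  · rw [k1]; ring
  · by_cases k2 : MvPolynomial.eval x g2 = 0
    · rw [k2]; ring
    · rw [h k1 k2]; ring

/-- the generic vectors -/
noncomputable def GQ : Fin 3 → Pol := fun j => MvPolynomial.X (0, j)
noncomputable def GR : Fin 3 → Pol := fun j => MvPolynomial.X (1, j)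

theorem ev_GQ (x : Fin 2 × Fin 3 → ℂ) :
    (fun j => MvPolynomial.eval x (GQ j)) = fun j => x (0, j) := by
  funext j; simp [GQ]

theorem ev_GR (x : Fin 2 × Fin 3 → ℂ) :
    (fun j => MvPolynomial.eval x (GR j)) = fun j => x (1, j) := by
  funext j; simp [GR]

theorem mulVec_eq (b : Fin 2 → Fin 3 → Fin 3 → ℤ) (p : Fin 2 → ℂ) (q : Fin 3 → ℂ) (k : Fin 3) :
    (Matrix.of (mp b p)).mulVec q k = p 0 * av b 0 q k + p 1 * av b 1 q k := by
  simp only [Matrix.mulVec, dotProduct, Matrix.of_apply, mp, av, Fin.sum_univ_succ, Fin.sum_univ_zero]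
  simp
  ring

/-- parallel vectors -/
theorem par (x y : Fin 3 → ℂ) (hx : x ≠ 0) (h : cr x y = 0) : ∃ l : ℂ, y = l • x := by
  have c0 := congrFun h 0
  have c1 := congrFun h 1
  have c2 := congrFun h 2
  simp only [cr, Matrix.cons_val_zero, Matrix.cons_val_one, Pi.zero_apply] at c0 c1
  have c2' : x 0 * y 1 - x 1 * y 0 = 0 := by simpa [cr] using c2
  by_cases h0 : x 0 = 0
  · by_cases h1 : x 1 = 0
    · have h2 : x 2 ≠ 0 := by
        intro h2
        apply hx
        funext i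
        have hi : i = 0 ∨ i = 1 ∨ i = 2 := by fin_cases i <;> simp
        rcases hi with rfl | rfl | rfl
        · exact h0
        · exact h1
        · exact h2
      refine ⟨y 2 / x 2, ?_⟩
      funext i
      have hi : i = 0 ∨ i = 1 ∨ i = 2 := by fin_cases i <;> simp
      simp only [Pi.smul_apply, smul_eq_mul]
      rcases hi with rfl | rfl | rfl
      · field_simp; linear_combination c1
      · field_simp; linear_combination -c0
      · field_simp
    · refine ⟨y 1 / x 1, ?_⟩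
      funext i
      have hi : i = 0 ∨ i = 1 ∨ i = 2 := by fin_cases i <;> simp
      simp only [Pi.smul_apply, smul_eq_mul]
      rcases hi with rfl | rfl | rfl
      · field_simp; linear_combination -c2'
      · field_simp
      · field_simp; linear_combination c0
  · refine ⟨y 0 / x 0, ?_⟩
    funext i
    have hi : i = 0 ∨ i = 1 ∨ i = 2 := by fin_cases i <;> simp
    simp only [Pi.smul_apply, smul_eq_mul]
    rcases hi with rfl | rfl | rfl
    · field_simp
    · field_simp; linear_combination c2'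
    · field_simp; linear_combination -c1

/-- (1): the images of some `q` are independent -/
theorem f1 (b : Fin 2 → Fin 3 → Fin 3 → ℤ) (hR : Rk2 b)
    (hD : ∃ p : Fin 2 → ℂ, (Matrix.of (mp b p)).det ≠ 0) :
    ∃ q : Fin 3 → ℂ, cr (av b 0 q) (av b 1 q) ≠ 0 := by
  by_contra hcon
  push Not at hcon
  obtain ⟨p1, hp1⟩ := hD
  -- an independent point
  obtain ⟨p2, hp2⟩ : ∃ p2 : Fin 2 → ℂ, p1 0 * p2 1 - p1 1 * p2 0 ≠ 0 := by
    by_cases h0 : p1 0 = 0
    · refine ⟨![1, 0], ?_⟩
      intro h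
      have h1 : p1 1 = 0 := by simpa [h0] using h
      apply hp1
      have : Matrix.of (mp b p1) = 0 := by
        ext k j
        simp [mp, Fin.sum_univ_succ, h0, h1]
      rw [this]; simp
    · refine ⟨![0, 1], ?_⟩
      simpa using h0
  set M1 := Matrix.of (mp b p1) with hM1
  set M2 := Matrix.of (mp b p2) with hM2
  have inj : ∀ q, M1.mulVec q = 0 → q = 0 := fun q hq => Matrix.eq_zero_of_mulVec_eq_zero hp1 hq
  have hcr : ∀ q, cr (M1.mulVec q) (M2.mulVec q) = 0 := by
    intro q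
    have h := hcon q
    have c0 := congrFun h 0
    have c1 := congrFun h 1
    have c2 := congrFun h 2
    simp only [cr, Matrix.cons_val_zero, Matrix.cons_val_one, Pi.zero_apply] at c0 c1
    have c2' : av b 0 q 0 * av b 1 q 1 - av b 0 q 1 * av b 1 q 0 = 0 := by simpa [cr] using c2
    funext i
    have hi : i = 0 ∨ i = 1 ∨ i = 2 := by fin_cases i <;> simp
    rcases hi with rfl | rfl | rfl
    · simp only [cr, Matrix.cons_val_zero, Pi.zero_apply, mulVec_eq, hM1, hM2]
      linear_combination (p1 0 * p2 1 - p1 1 * p2 0) * c0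
    · simp only [cr, Matrix.cons_val_one, Matrix.cons_val_zero, Pi.zero_apply, mulVec_eq, hM1, hM2]
      linear_combination (p1 0 * p2 1 - p1 1 * p2 0) * c1
    · have : cr (M1.mulVec q) (M2.mulVec q) 2 =
          M1.mulVec q 0 * M2.mulVec q 1 - M1.mulVec q 1 * M2.mulVec q 0 := by simp [cr]
      rw [this]
      simp only [Pi.zero_apply, mulVec_eq, hM1, hM2]
      linear_combination (p1 0 * p2 1 - p1 1 * p2 0) * c2'
  have hl : ∀ q, q ≠ 0 → ∃ l : ℂ, M2.mulVec q = l • M1.mulVec q := by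
    intro q hq
    exact par _ _ (fun h => hq (inj q h)) (hcr q)
  have e1 : ∀ j : Fin 3, (Pi.single j 1 : Fin 3 → ℂ) ≠ 0 := by
    intro j h
    have := congrFun h j
    simp at this
  choose l hl' using fun j : Fin 3 => hl (Pi.single j 1) (e1 j)
  have hll : ∀ i j : Fin 3, i ≠ j → l i = l j := by
    intro i j hij
    have hne : (Pi.single i 1 + Pi.single j 1 : Fin 3 → ℂ) ≠ 0 := by
      intro h
      have := congrFun h i
      simp [Pi.single_eq_of_ne hij] at this
    obtain ⟨m, hm⟩ := hl _ hne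
    rw [Matrix.mulVec_add, Matrix.mulVec_add, hl', hl'] at hm
    have h0 : M1.mulVec ((m - l i) • Pi.single i 1 + (m - l j) • Pi.single j 1) = 0 := by
      rw [Matrix.mulVec_add, Matrix.mulVec_smul, Matrix.mulVec_smul]
      have : (m - l i) • M1.mulVec (Pi.single i 1) + (m - l j) • M1.mulVec (Pi.single j 1)
          = m • (M1.mulVec (Pi.single i 1) + M1.mulVec (Pi.single j 1)) -
            (l i • M1.mulVec (Pi.single i 1) + l j • M1.mulVec (Pi.single j 1)) := by
        simp only [sub_smul, smul_add]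
        abel
      rw [this, ← hm, sub_self]
    have h1 := inj _ h0
    have h2 := congrFun h1 i
    have h3 := congrFun h1 j
    simp [Pi.single_eq_of_ne hij] at h2
    simp [Pi.single_eq_of_ne hij.symm] at h3
    linear_combination h3 - h2
  -- `M2 = l M1`
  have hcol : ∀ j k : Fin 3, mp b p2 k j = l 0 * mp b p1 k j := by
    intro j k
    have hlj : l j = l 0 := by
      by_cases h : j = 0
      · rw [h]
      · exact hll j 0 h
    have h := congrFun (hl' j) k
    simp only [Matrix.mulVec_single_one, Pi.smul_apply, smul_eq_mul, Matrix.col_apply, hM1, hM2,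
      Matrix.of_apply] at h
    rw [h, hlj]
  have hpne : (fun i => p2 i - l 0 * p1 i) ≠ 0 := by
    intro h
    have h0 := congrFun h 0
    have h1 := congrFun h 1
    simp only [Pi.zero_apply] at h0 h1
    apply hp2
    linear_combination p1 0 * h1 - p1 1 * h0
  obtain ⟨k, k', j, j', hmin⟩ := hR _ hpne
  apply hmin
  have hz : ∀ k j, mp b (fun i => p2 i - l 0 * p1 i) k j = 0 := by
    intro k j
    have h := hcol j k
    simp only [mp, Fin.sum_univ_two] at h ⊢
    linear_combination h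
  simp only [Pool.Agent.W978.QN.mnr, hz]
  ring

theorem rk_tb (b : Fin 2 → Fin 3 → Fin 3 → ℤ) (hR : Rk2 b) : Rk2 (tb b) := by
  intro p hp
  obtain ⟨k, k', j, j', h⟩ := hR p hp
  refine ⟨j, j', k, k', ?_⟩
  intro h0
  apply h
  have e : ∀ k j, mp (tb b) p k j = mp b p j k := fun _ _ => rfl
  simp only [Pool.Agent.W978.QN.mnr, e] at h0 ⊢
  linear_combination h0

theorem det_tb (b : Fin 2 → Fin 3 → Fin 3 → ℤ) (p : Fin 2 → ℂ) :
    (Matrix.of (mp (tb b) p)).det = (Matrix.of (mp b p)).det := by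
  rw [← Matrix.det_transpose]
  rfl

theorem solve (x y : Fin 3 → ℂ) (h : cr x y ≠ 0) (α β : ℂ) :
    ∃ r : Fin 3 → ℂ, dp x r = α ∧ dp y r = β := by
  have e2 : cr x y 2 = x 0 * y 1 - x 1 * y 0 := by simp [cr]
  have e1 : cr x y 1 = x 2 * y 0 - x 0 * y 2 := by simp [cr]
  have e0 : cr x y 0 = x 1 * y 2 - x 2 * y 1 := by simp [cr]
  by_cases h2 : x 0 * y 1 - x 1 * y 0 = 0
  · by_cases h1 : x 2 * y 0 - x 0 * y 2 = 0
    · by_cases h0 : x 1 * y 2 - x 2 * y 1 = 0
      · exfalso
        apply h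
        funext i
        have hi : i = 0 ∨ i = 1 ∨ i = 2 := by fin_cases i <;> simp
        rcases hi with rfl | rfl | rfl
        · rw [e0, h0]; rfl
        · rw [e1, h1]; rfl
        · rw [e2, h2]; rfl
      · obtain ⟨D, hD⟩ : ∃ D, D = x 1 * y 2 - x 2 * y 1 := ⟨_, rfl⟩
        rw [← hD] at h0
        refine ⟨![0, (α * y 2 - β * x 2) / D, (β * x 1 - α * y 1) / D], ?_, ?_⟩
        · simp [dp, Fin.sum_univ_succ]; field_simp; rw [hD]; ring
        · simp [dp, Fin.sum_univ_succ]; field_simp; rw [hD]; ring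
    · obtain ⟨D, hD⟩ : ∃ D, D = x 2 * y 0 - x 0 * y 2 := ⟨_, rfl⟩
      rw [← hD] at h1
      refine ⟨![(β * x 2 - α * y 2) / D, 0, (α * y 0 - β * x 0) / D], ?_, ?_⟩
      · simp [dp, Fin.sum_univ_succ]; field_simp; rw [hD]; ring
      · simp [dp, Fin.sum_univ_succ]; field_simp; rw [hD]; ring
  · obtain ⟨D, hD⟩ : ∃ D, D = x 0 * y 1 - x 1 * y 0 := ⟨_, rfl⟩
    rw [← hD] at h2
    refine ⟨![(α * y 1 - β * x 1) / D, (β * x 0 - α * y 0) / D, 0], ?_, ?_⟩
    · simp [dp, Fin.sum_univ_succ]; field_simp; rw [hD]; ring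
    · simp [dp, Fin.sum_univ_succ]; field_simp; rw [hD]; ring

theorem fv_eq (b : Fin 2 → Fin 3 → Fin 3 → ℤ) (p : Fin 2 → ℂ) (q r : Fin 3 → ℂ) :
    fv b p q r = p 0 * dp (av b 0 q) r + p 1 * dp (av b 1 q) r := by
  simp only [fv, dp, av, Fin.sum_univ_succ, Fin.sum_univ_zero]
  simp
  ring

theorem comp_ne {x : Fin 3 → ℂ} (h : x ≠ 0) : ∃ i, x i ≠ 0 := by
  by_contra hc
  push Not at hc
  exact h (funext hc)

theorem pt : S_PT := by
  intro b hR hD
  obtain ⟨q1, hq1⟩ := f1 b hR hD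
  obtain ⟨r1, hr1⟩ := f1 (tb b) (rk_tb b hR) (by
    obtain ⟨p, hp⟩ := hD
    exact ⟨p, by rw [det_tb]; exact hp⟩)
  obtain ⟨p1, hp1⟩ := hD
  obtain ⟨r2, hr2, hr2'⟩ := solve _ _ hq1 (p1 1) (-p1 0)
  obtain ⟨i, hi⟩ := comp_ne hq1
  obtain ⟨i', hi'⟩ := comp_ne hr1
  obtain ⟨x, h1, h2, h3⟩ := cn3 (cr (av b 0 GQ) (av b 1 GQ) i)
    (cr (av (tb b) 0 GR) (av (tb b) 1 GR) i') (Matrix.of (mp b (pp b GQ GR))).det
    (by
      refine ⟨fun z => if z.1 = 0 then q1 z.2 else 0, ?_⟩
      rw [← cr_nat, ← av_nat, ← av_nat, ev_GQ]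
      simpa using hi)
    (by
      refine ⟨fun z => if z.1 = 0 then 0 else r1 z.2, ?_⟩
      rw [← cr_nat, ← av_nat, ← av_nat, ev_GR]
      simpa using hi')
    (by
      refine ⟨fun z => if z.1 = 0 then q1 z.2 else r2 z.2, ?_⟩
      rw [← det_nat, ← pp_nat, ev_GQ, ev_GR]
      have : pp b q1 r2 = p1 := by
        funext i
        have hi : i = 0 ∨ i = 1 := by fin_cases i <;> simp
        rcases hi with rfl | rfl
        · simp [pp, hr2']
        · simp [pp, hr2]
      simpa [this] using hp1)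
  rw [← cr_nat, ← av_nat, ← av_nat, ev_GQ] at h1
  rw [← cr_nat, ← av_nat, ← av_nat, ev_GR] at h2
  rw [← det_nat, ← pp_nat, ev_GQ, ev_GR] at h3
  set q : Fin 3 → ℂ := fun j => x (0, j) with hq
  set r : Fin 3 → ℂ := fun j => x (1, j) with hr
  have hp0 : pp b q r ≠ 0 := by
    intro h0
    apply h3
    rw [h0]
    have : Matrix.of (mp b (0 : Fin 2 → ℂ)) = 0 := by
      ext k j
      simp [mp]
    rw [this]; simp
  refine ⟨pp b q r, q, r, hp0, ?_, ?_, ?_, h3, ?_, ?_, ?_⟩
  · intro h0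
    apply h1
    rw [h0]
    have hi : i = 0 ∨ i = 1 ∨ i = 2 := by fin_cases i <;> simp
    rcases hi with rfl | rfl | rfl <;> simp [cr, av]
  · intro h0
    apply h2
    rw [h0]
    have hi : i' = 0 ∨ i' = 1 ∨ i' = 2 := by fin_cases i' <;> simp
    rcases hi with rfl | rfl | rfl <;> simp [cr, av]
  · rw [fv_eq]
    simp [pp]
    ring
  · intro h0; apply h1; rw [h0]; rfl
  · intro h0; apply h2; rw [h0]; rfl
  · by_contra hc
    push Not at hc
    apply hp0
    funext i
    have hi : i = 0 ∨ i = 1 := by fin_cases i <;> simp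
    rcases hi with rfl | rfl
    · simp [pp, hc.2]
    · simp [pp, hc.1]

end Pool.Agent.W135.QP.PT
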